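import Pool.Agent.U365.POW.D
import Pool.Agent.Results.MP_ca2859_nt.MultiplicativeValues

/-!
# The discriminant bound for all hyperelliptic curves of height near `s(m)`, `m - φ(m)` or `α m + β f(m)`

Let `s(m)` be the sum of the proper divisors of `m`. Let `G` be a function with steps bounded below by a positive constant and
growth at most `v ^ e`. Let `K` be a number field, `g ≥ 2`, `c > 0`. The discriminant bound `Δ_C ≤ c M_C ^ κ` for the
hyperelliptic curves of genus `g` over `K` with rational Weierstrass points changes at `κ = 4 g + 4`: for `κ > 4 g + 4` it holds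
for ALL twists of ALL configurations `P` of roots with `|H_K(P) ^ (2 g) - G (v)| ≤ v ^ θ`, and for `κ < 4 g + 4` it fails for some
twist of EACH such configuration, where `v = s(m)` or `v = m - φ(m)`, for a set of `m` of the lower density given by the
exponents, and for almost all `m` with a large divisor which is a prime or the product of two different primes. The same is
proved for the values `v = α m + β f(m)` of multiplicative functions with `f p = p + c` at the primes, uniformly in
`|α|, |β| ≤ N ^ δ` and with a power saving in the number of the exceptional `m`.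

Proof. The number of the exceptional configurations has a power saving (starting theorem). Let `m = k v p` with large primes
`p ≠ v`. Then `g = A v p + B (v + p) + B c`, `A = α k + β f(k)`, `B = β c f(k)`, and so `(A v + B) (A p + B) = A g + B² - A B c`: for
given `g`, `k`, `α`, `β` there are only `N^o(1)` possibilities for `p` and `v`.
-/

set_option autoImplicit false

open NumberField Height Finset LinearAlgebra.Projectivization Polynomial
open Pool.Agent.W318 (discNorm badNorm)

namespace Pool.Agent.Results.MP_ca2859_nt.AliquotValues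

open Pool.Agent.U365.POW (Values Dens NearAll values_of values_mono dens_mono)
open Pool.Agent.N733.TG (Expanding)
open Pool.Agent.Results.MP_ca2859_nt.MultiplicativeValues (roots curve expo expoBelow count_of)

/-- The inequality `Δ_C ≤ c M_C ^ κ` holds for ALL twists of ALL configurations `P` with different roots and
`|H_K(P) ^ (2 g) - G v| ≤ v ^ θ`. -/
def AllHold (K : Type) [Field K] [NumberField K] (g n : ℕ) (κ c : ℝ) (G : ℕ → ℝ) (θ : ℝ) (v : ℕ) : Prop :=
  ∀ P : ℙ K (Fin (n + 1) → K), Function.Injective (roots P.rep) → |P.mulHeight ^ (2 * g) - G v| ≤ (v : ℝ) ^ θ →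
    ∀ d : K, d ≠ 0 → (discNorm g (curve d P.rep) : ℝ) ≤ c * (badNorm g (curve d P.rep) : ℝ) ^ κ

/-- The inequality `Δ_C ≤ c M_C ^ κ` fails for some twist of EACH configuration `P` with different roots and
`|H_K(P) ^ (2 g) - G v| ≤ v ^ θ`. -/
def AllFail (K : Type) [Field K] [NumberField K] (g n : ℕ) (κ c : ℝ) (G : ℕ → ℝ) (θ : ℝ) (v : ℕ) : Prop :=
  ∀ P : ℙ K (Fin (n + 1) → K), Function.Injective (roots P.rep) → |P.mulHeight ^ (2 * g) - G v| ≤ (v : ℝ) ^ θ →
    ∃ d : K, d ≠ 0 ∧ c * (badNorm g (curve d P.rep) : ℝ) ^ κ < (discNorm g (curve d P.rep) : ℝ)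

/-- **Theorem.** Let `G` have steps `≥ a > 0` and growth at most `v^e`. Let `K` be a number field, `g ≥ 2`, `c > 0` and `θ ≥ 0`.
(1) If `κ > 4 g + 4` then `expo g κ < 2 g`, and if `E = e * expo g κ / (2 g) + θ < 1` then the property `AllHold` holds for the
values of similar functions as the aliquot sum (`Values`: for `s(m)`, for `m - φ(m)` and for all `α m + β f(m)`, for almost all
the `m` with a divisor `≥ m ^ (E + ρ)` which is a prime or the product of two different primes, for every `ρ > 0`), and it holds
for `s(m)` and `m - φ(m)` for a set of `m` of lower density at least `1 - E`. (2) If `0 ≤ κ < 4 g + 4` then `expoBelow g κ < 2 g`,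
and if `E = e * expoBelow g κ / (2 g) + θ < 1` then the same is true of the property `AllFail`. -/
theorem result : ∀ (G : ℕ → ℝ) (e : ℝ), Expanding G e →
      ∀ (K : Type) [Field K] [NumberField K] (g n : ℕ) (κ c θ : ℝ), 2 ≤ g → n + 1 = 2 * g → 0 < c → 0 ≤ θ →
      (4 * g + 4 < κ → expo g κ < 2 * g ∧ (e * (expo g κ / (2 * g)) + θ < 1 →
        (∀ ρ : ℝ, 0 < ρ → Values (e * (expo g κ / (2 * g)) + θ + ρ) (AllHold K g n κ c G θ)) ∧
          Dens (1 - (e * (expo g κ / (2 * g)) + θ)) (AllHold K g n κ c G θ))) ∧
      (0 ≤ κ → κ < 4 * g + 4 → expoBelow g κ < 2 * g ∧ (e * (expoBelow g κ / (2 * g)) + θ < 1 →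
        (∀ ρ : ℝ, 0 < ρ → Values (e * (expoBelow g κ / (2 * g)) + θ + ρ) (AllFail K g n κ c G θ)) ∧
          Dens (1 - (e * (expoBelow g κ / (2 * g)) + θ)) (AllFail K g n κ c G θ))) := by
  intro G e hG K _ _ g n κ c θ hg hn hc hθ
  refine ⟨fun hκ => ?_, fun hκ0 hκ => ?_⟩
  · obtain ⟨h1, h2⟩ := (RationalWeierstrassPoints.result K g n hg hn κ).1 hκ
    have hg2 : (2 : ℝ) ≤ g := by exact_mod_cast hg
    have hs : 0 ≤ expo g κ := by
      have hk : 0 < κ - 4 * g - 2 := by linarith
      unfold expo
      refine le_min ((by linarith : (0 : ℝ) ≤ 2 * g - 1 / 2).trans (le_max_left _ _)) (le_min ?_ ?_)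
      · positivity
      · have : (0 : ℝ) ≤ 2 * g - 1 := by linarith
        positivity
    refine ⟨h1, fun hle => ?_⟩
    exact values_of (T := ℙ K (Fin (n + 1) → K)) (fun P => Function.Injective (roots P.rep))
      (fun P => ∀ d : K, d ≠ 0 → (discNorm g (curve d P.rep) : ℝ) ≤ c * (badNorm g (curve d P.rep) : ℝ) ^ κ)
      (fun P => P.mulHeight ^ (2 * g)) hG (s := expo g κ / (2 * g)) (κ := θ) (by positivity) hθ hle
      (count_of hg _ (fun B => RationalWeierstrassPoints.exceptional K g n κ c B) (expo g κ)
        (fun δ hδ => h2 c δ hc hδ) (fun P hP B hB hB2 => by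
          have h3 := hP.2
          push Not at h3
          exact ⟨hP.1, hB2, h3⟩))
  · obtain ⟨h1, h2⟩ := (RationalWeierstrassPoints.result K g n hg hn κ).2 hκ0 hκ
    have hg2 : (2 : ℝ) ≤ g := by exact_mod_cast hg
    have hs : 0 ≤ expoBelow g κ := by
      unfold expoBelow
      exact (by linarith : (0 : ℝ) ≤ 2 * g - 1 / 2).trans (le_max_left _ _)
    refine ⟨h1, fun hle => ?_⟩
    exact values_of (T := ℙ K (Fin (n + 1) → K)) (fun P => Function.Injective (roots P.rep))
      (fun P => ∃ d : K, d ≠ 0 ∧ c * (badNorm g (curve d P.rep) : ℝ) ^ κ < (discNorm g (curve d P.rep) : ℝ))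
      (fun P => P.mulHeight ^ (2 * g)) hG (s := expoBelow g κ / (2 * g)) (κ := θ) (by positivity) hθ hle
      (count_of hg _ (fun B => RationalWeierstrassPoints.uniform K g n κ c B) (expoBelow g κ)
        (fun δ hδ => h2 c δ hc hδ) (fun P hP B hB hB2 => by
          have h3 := hP.2
          push Not at h3
          exact ⟨hP.1, hB2, h3⟩))

end Pool.Agent.Results.MP_ca2859_nt.AliquotValues
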