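import Pool.Agent.U536.CF.F
import Pool.Agent.Results.MP_ca2859_nt.MultiplicativeValues

/-!
# The discriminant bound for all hyperelliptic curves with heights near an integer with a large common factor with a value of a multiplicative function

Let `f` be a positive multiplicative function of at most polynomial growth such that `f p ≤ M p` for the large primes `p`,
with different values at different large primes; for example Euler's function or the sum of the divisors. Let `G` have
steps bounded below by a positive constant and growth at most `v^e`, for example `α v^e`. Let `b < 1` and `0 ≤ c < 2 b -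
1`. For all `m ≤ N` but `N exp (-(log N)^c)`, for EVERY integer `w ≥ exp ((log N)^b)` with `gcd(w, f(m)) ≥ w^ρ`, (1) if `κ
> 4 g + 4` and `e expo(g, κ) / (2 g) + θ < ρ`, the inequality `Δ_C ≤ A M_C ^ κ` holds for ALL twists `d` of ALL
configurations `P` with different roots and `|H_K(P) ^ (2 g) - G w| ≤ w ^ θ`; (2) if `0 ≤ κ < 4 g + 4` and `e expoBelow(g,
κ) / (2 g) + θ < ρ` the inequality fails for some twist of EACH such configuration, if `K` is a number field, `g ≥ 2`, `A
> 0`, `θ ≥ 0`, `ρ ≤ 1`; here `expo g κ < 2 g` and `expoBelow g κ < 2 g`. The integers `w` include all large divisors of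
`f(m)` and their multiples by small integers; for Euler's function, the orders of the elements of the group of units
modulo `m`.

Proof. Write `m = k u` with `u` squarefree and composed of primes larger than `N^(1/J)`, `J = (log N)^a`, and `k ≤ exp (4
(log N)^a)`; this is possible for all `m ≤ N` but very few. If `v ∣ f(k) f(u)`, then `v = g v'` with `g ∣ f(k)` and `v' ∣
∏ f(p)`, and the number of such `u ≤ N / k` is at most `N / (k v')` times `(log N)^O(J)` times the number `τ_J(v')` of the
ordered factorizations of `v'` into `J` factors. The inequality `τ_J^q ≤ τ_K` for `K ≥ J^q` and Hölder's inequality bound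
the sum over the sparse set of the exceptional `v`. The file `MultiplicativeValues` of the starting library treats the
integers `w = f(m)`, with `N / (log N)^U` exceptions.
-/

set_option autoImplicit false

namespace Pool.Agent.Results.MP_ca2859_nt.CommonFactors

open NumberField Height Finset LinearAlgebra.Projectivization Polynomial
open Pool.Agent.W318 (discNorm badNorm)
open Pool.Agent.N733.TG (LM Expanding lm_totient lm_sigma expanding_pow)
open Pool.Agent.U536.CF (Common common_good common_of_dvd common_order)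
open Pool.Agent.Results.MP_ca2859_nt.MultiplicativeValues (roots curve expo expoBelow count_of)

/-- **The discriminant bound for all hyperelliptic curves with heights near an integer with a large common factor with a value
of a multiplicative function.** Let `f` be multiplicative and positive, of at most polynomial growth, with `f p ≤ M p` at
the large primes, and injective there. Let `G` have steps `≥ a > 0` and growth at most `v^e`. Let `b < 1` and `0 ≤ c < 2 b
- 1`, `K` is a number field, `g ≥ 2`, `A > 0`, `θ ≥ 0`, `ρ ≤ 1`; here `expo g κ < 2 g` and `expoBelow g κ < 2 g`. For all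
large `N`, for all `m ≤ N` but `N exp (-(log N)^c)`, for EVERY integer `w ≥ exp ((log N)^b)` with `gcd(w, f(m)) ≥ w^ρ`,
(1) if `κ > 4 g + 4` and `e expo(g, κ) / (2 g) + θ < ρ`, the inequality `Δ_C ≤ A M_C ^ κ` holds for ALL twists `d` of ALL
configurations `P` with different roots and `|H_K(P) ^ (2 g) - G w| ≤ w ^ θ`; (2) if `0 ≤ κ < 4 g + 4` and `e expoBelow(g,
κ) / (2 g) + θ < ρ` the inequality fails for some twist of EACH such configuration. All divisors `w ≥ exp ((log N)^b)` of
`f(m)` are such integers `w`, and for Euler's function the orders `≥ exp ((log N)^b)` of the units modulo `m`. Euler's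
function and the sum of the divisors are examples of `f`, and `α v^e` with `α > 0`, `e ≥ 1` is an example of `G`. -/
theorem result :
    (∀ f : ℕ → ℕ, LM f → ∀ (G : ℕ → ℝ) (e : ℝ), Expanding G e →
      ∀ (K : Type) [Field K] [NumberField K] (g n : ℕ) (κ A θ ρ b c : ℝ), 2 ≤ g → n + 1 = 2 * g → 0 < A → 0 ≤ θ →
      ρ ≤ 1 → b < 1 → 0 ≤ c → c < 2 * b - 1 →
      (4 * g + 4 < κ → expo g κ < 2 * g ∧ (e * (expo g κ / (2 * g)) + θ < ρ → ∃ N₀ : ℕ, ∀ N : ℕ, N₀ ≤ N →
        ({m : ℕ | 1 ≤ m ∧ m ≤ N ∧ ¬ ∀ w : ℕ, Common f b ρ N m w → ∀ P : ℙ K (Fin (n + 1) → K),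
          Function.Injective (roots P.rep) → |P.mulHeight ^ (2 * g) - G w| ≤ (w : ℝ) ^ θ → ∀ d : K, d ≠ 0 →
            (discNorm g (curve d P.rep) : ℝ) ≤ A * (badNorm g (curve d P.rep) : ℝ) ^ κ}.ncard : ℝ) ≤
          N * Real.exp (-(Real.log N ^ c)))) ∧
      (0 ≤ κ → κ < 4 * g + 4 →
        expoBelow g κ < 2 * g ∧ (e * (expoBelow g κ / (2 * g)) + θ < ρ → ∃ N₀ : ℕ, ∀ N : ℕ, N₀ ≤ N →
        ({m : ℕ | 1 ≤ m ∧ m ≤ N ∧ ¬ ∀ w : ℕ, Common f b ρ N m w → ∀ P : ℙ K (Fin (n + 1) → K),
          Function.Injective (roots P.rep) → |P.mulHeight ^ (2 * g) - G w| ≤ (w : ℝ) ^ θ → ∃ d : K, d ≠ 0 ∧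
            A * (badNorm g (curve d P.rep) : ℝ) ^ κ < (discNorm g (curve d P.rep) : ℝ)}.ncard : ℝ) ≤
          N * Real.exp (-(Real.log N ^ c))))) ∧
    (LM Nat.totient ∧ LM (fun m => ∑ d ∈ m.divisors, d)) ∧
    (∀ α d : ℝ, 0 < α → 1 ≤ d → Expanding (fun v => α * (v : ℝ) ^ d) d) ∧
    (∀ (f : ℕ → ℕ) (b ρ : ℝ) (N m w : ℕ), ρ ≤ 1 → Real.exp (Real.log N ^ b) ≤ (w : ℝ) → w ∣ f m → Common f b ρ N m w) ∧
    ∀ (b ρ : ℝ) (N m : ℕ), ρ ≤ 1 → ∀ x : (ZMod m)ˣ, Real.exp (Real.log N ^ b) ≤ (orderOf x : ℝ) →
      Common Nat.totient b ρ N m (orderOf x) := by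
  refine ⟨?_, ⟨lm_totient, lm_sigma⟩, fun α d hα hd => expanding_pow hα hd, fun f b ρ N m w hρ hw hd => common_of_dvd hρ hw hd,
    fun b ρ N m hρ x hx => common_order hρ x hx⟩
  refine fun f hf G e hG K _ _ g n κ A θ ρ b c hg hn hA hθ hρ hb hc hcb => ⟨fun hκ => ?_, fun hκ0 hκ => ?_⟩
  · obtain ⟨h1, h2⟩ := (RationalWeierstrassPoints.result K g n hg hn κ).1 hκ
    have hg2 : (2 : ℝ) ≤ g := by exact_mod_cast hg
    have hs : 0 ≤ expo g κ := by
      have hk : 0 < κ - 4 * g - 2 := by linarith
      unfold expo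
      refine le_min ((by linarith : (0 : ℝ) ≤ 2 * g - 1 / 2).trans (le_max_left _ _)) (le_min ?_ ?_)
      · positivity
      · have : (0 : ℝ) ≤ 2 * g - 1 := by linarith
        positivity
    refine ⟨h1, fun hle => ?_⟩
    obtain ⟨N₀, hN₀⟩ := common_good (T := ℙ K (Fin (n + 1) → K)) (fun P => Function.Injective (roots P.rep))
      (fun P => ∀ d : K, d ≠ 0 → (discNorm g (curve d P.rep) : ℝ) ≤ A * (badNorm g (curve d P.rep) : ℝ) ^ κ)
      (fun P => P.mulHeight ^ (2 * g)) hf hG (s := expo g κ / (2 * g)) (κ := θ) (by positivity) hθ hle hρ hb hc hcb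
      (count_of hg _ (fun B => RationalWeierstrassPoints.exceptional K g n κ A B) (expo g κ)
        (fun δ hδ => h2 A δ hA hδ) (fun P hP B hB hB2 => by
          have h3 := hP.2
          push Not at h3
          exact ⟨hP.1, hB2, h3⟩))
    exact ⟨N₀, hN₀⟩
  · obtain ⟨h1, h2⟩ := (RationalWeierstrassPoints.result K g n hg hn κ).2 hκ0 hκ
    have hg2 : (2 : ℝ) ≤ g := by exact_mod_cast hg
    have hs : 0 ≤ expoBelow g κ := by
      unfold expoBelow
      exact (by linarith : (0 : ℝ) ≤ 2 * g - 1 / 2).trans (le_max_left _ _)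
    refine ⟨h1, fun hle => ?_⟩
    obtain ⟨N₀, hN₀⟩ := common_good (T := ℙ K (Fin (n + 1) → K)) (fun P => Function.Injective (roots P.rep))
      (fun P => ∃ d : K, d ≠ 0 ∧ A * (badNorm g (curve d P.rep) : ℝ) ^ κ < (discNorm g (curve d P.rep) : ℝ))
      (fun P => P.mulHeight ^ (2 * g)) hf hG (s := expoBelow g κ / (2 * g)) (κ := θ) (by positivity) hθ hle hρ hb hc hcb
      (count_of hg _ (fun B => RationalWeierstrassPoints.uniform K g n κ A B) (expoBelow g κ)
        (fun δ hδ => h2 A δ hA hδ) (fun P hP B hB hB2 => by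
          have h3 := hP.2
          push Not at h3
          exact ⟨hP.1, hB2, h3⟩))
    exact ⟨N₀, hN₀⟩

end Pool.Agent.Results.MP_ca2859_nt.CommonFactors
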