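import Pool.Agent.U168.HY.Asym

/-!
# The error term at the exponent `κ(g) + 4 g + 2` in the Szpiro-type bound for hyperelliptic curves

For a hyperelliptic curve `C : y² = F(x)` of genus `g` over a number field `K`, `discNorm g F` is
`Δ_C = ∏ N_v ^ n_v` and `badNorm g F` is `M_C`, the product of `N_v` over the places of bad
reduction (definitions in `Pool.Agent.W318.SzpDefs`). The open problem asks for constants `c`, `κ`,
depending on `K` and `g`, with `Δ_C ≤ c M_C ^ κ`. The starting result `ExponentLowerBound` shows,
for `g ≥ 2`, that an admissible exponent is larger than `κ(g) + 4 g + 2`, where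
`κ(g) = 2 (2 g + 1) (⌊(g + 1) / 2⌋ + 1)`: `Δ / M ^ (κ(g) + 4 g + 2)` tends to infinity for one
sequence of curves, with no rate.

Here: the rate, for curves of every genus `g ≥ 2`, the analogue of the theorems of
Stewart-Tijdeman (for the abc conjecture) and of Masser (for Szpiro's conjecture, `g = 1`). There
are `c > 0` and one sequence of integral polynomials `f_j` such that over EVERY number field `K`
the curves `y² = f_j(x)` have genus `g`, `M_j → ∞`, and for all large `j`
`Δ_j ≥ M_j ^ (κ(g) + 4 g + 2) exp (c (log M_j) ^ (2 / (⌊(g + 1) / 2⌋ + 5)) / log log M_j)`.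

The proof. `f = w (Y (w^σ x^n + 1)² + 4 T w^σ x^n)`, `n = g + 1`, `σ = ⌊n / 2⌋`, `T = Z - Y` of
either sign. By the pigeonhole principle (Stewart-Tijdeman) there are coprime `Y`, `Z` composed of
the primes in `(u, u²]`, with `Y < 2 Z < 4 Y` and `2 ^ k ∣ Z - Y`, `k` as large as possible for
exponents at most `u ^ (⌊(g + 1) / 2⌋ + 3)`; and the product of the primes dividing `Y` is at most
that of `Z`. The twist `w` contains all primes `p > u` which divide `T Z`: also the primes dividing
the smooth number `Z`, so that these cost only `p ^ (4 g + 2)`, while the primes dividing `Y` cost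
`p ^ (κ(g) + 4 g + 2)`; this asymmetry determines the exponent `2 / (⌊(g + 1) / 2⌋ + 5)`.
-/

namespace Pool.Agent.Results.MP_ca2859_nt.ErrorTermCriticalExponent

open Polynomial Pool.Agent.W318 Filter

/-- For every `g ≥ 2` there are `c > 0` and integral polynomials `f_j` such that over every number
field `K` the curves `y² = f_j(x)` are hyperelliptic of genus `g`, `M → ∞`, and for all large `j`
`Δ ≥ M ^ (κ(g) + 4 g + 2) exp (c (log M) ^ (2 / (⌊(g + 1) / 2⌋ + 5)) / log log M)`. -/
theorem result (g : ℕ) (hg : 2 ≤ g) :
    ∃ c : ℝ, 0 < c ∧ ∃ f : ℕ → ℤ[X], ∀ (K : Type) [Field K] [NumberField K],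
      (∀ j, IsHyp g ((f j).map (Int.castRingHom K))) ∧
      Tendsto (fun j => badNorm g ((f j).map (Int.castRingHom K))) atTop atTop ∧
      ∀ᶠ j in atTop,
        (badNorm g ((f j).map (Int.castRingHom K)) : ℝ) ^ (kap g + (4 * g + 2)) *
          Real.exp (c * (Real.log (badNorm g ((f j).map (Int.castRingHom K))) ^
              ((2 : ℝ) / (((g + 1) / 2 + 5 : ℕ) : ℝ)) /
            Real.log (Real.log (badNorm g ((f j).map (Int.castRingHom K)))))) ≤
        (discNorm g ((f j).map (Int.castRingHom K)) : ℝ) :=
  Pool.Agent.U168.HY.main g hg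

end Pool.Agent.Results.MP_ca2859_nt.ErrorTermCriticalExponent
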