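import Pool.Agent.U405.RS.F
import Pool.Agent.U405.RS.F2
import Pool.Agent.Results.MP_ca2859_nt.RationalWeierstrassPoints

/-!
# Szpiro's discriminant bound for hyperelliptic curves with rational Weierstrass points: heights near values of `f` at thin sets

Let `f` be a positive multiplicative function of at most polynomial growth which for each `a ≥ 1` is injective at the powers
`p ^ a` of the large primes and at most `M p ^ a` there; for example Euler's function or the sum of the divisors. Let `K` be a number field, `g ≥ 2`, `α > 0`, `ε ≥ 1`, `θ ≥ 0`. For `κ > 4 g + 4` the inequality `Δ_C ≤ c M_C ^ κ` holds for ALL twists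
of ALL hyperelliptic curves `y² = d ∏ (x - e_i)` of genus `g` with `2 g + 2` rational Weierstrass points (one at infinity or
normalized at `0`) whose configuration `P` satisfies `|H_K(P) ^ (2 g) - α f(v)^ε| ≤ f(v)^θ`, and for `κ < 4 g + 4` it fails for
some twist of EACH such configuration, for almost all `v` (with a saving of any power of the logarithm) in each of these sets, `e`
the exponent `ε expo g κ / (2 g) + θ`, respectively `ε expoBelow g κ / (2 g) + θ`:

* the values of any integer polynomial without repeated roots, of degree `< 1 / e`;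
* the shifted primes `p + a`, `a` any integer, if `e < 1`;
* the intervals `(x, x + y]`, `x^τ ≤ y ≤ x`, for every `τ > e`, `τ ≤ 1`.

Proof. Own tool `Pool.Agent.U405.RS`: let `S` be a set of at least `N^(θ + δ)` integers up to `N` with at most
`B g^ω(k) |S| / k` multiples of `k` for every `k ≤ N^δ`, and let `W` have at most `C X^θ` elements up to `X`. Then `f(m) ∈ W` for at
most `|S| / (log N)^U` of the `m` in `S`. For this write `m = k w` with `k` composed of the primes `≤ z = N^(1 / J)`, `J` a small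
multiple of `log log N`. By Rankin's method with the weights `g^ω(k)` one has `k ≤ N^η` for most `m`; and `w` has at most `J`
prime factors and exponents `≤ J`, so that `w` is determined by `f(w)` up to `(J τ(f(w)) + 1)^J = N^o(1)` possibilities. The three
kinds of sets satisfy the hypothesis: for polynomials because `P` has at most `g` zeros modulo every prime power (lifting of
zeros by the identity `U P + V P' = R`), for shifted primes by the Brun-Titchmarsh inequality (library). The exceptional
configurations are counted by the starting theorem `RationalWeierstrassPoints` of this problem.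
-/

set_option autoImplicit false

namespace Pool.Agent.Results.MP_ca2859_nt.SparseArguments

open NumberField Height Finset LinearAlgebra.Projectivization Polynomial
open Pool.Agent.W318 (discNorm badNorm)


open Pool.Agent.N733.TG (Expanding expanding_pow)
open Pool.Agent.U405.RS (PM Sparse sparse_good sparse_set' examples)

/-- the roots `0, x_0, ..., x_n` -/
def roots {K : Type} [Field K] {n : ℕ} (x : Fin (n + 1) → K) : Fin (n + 2) → K := Fin.cons 0 x

/-- the right hand side of `y² = d ∏ (X - e_i)`, the `e_i` being the roots -/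
noncomputable def curve {K : Type} [Field K] {n : ℕ} (d : K) (x : Fin (n + 1) → K) : K[X] :=
  C d * ∏ i, (X - C (roots x i))

/-- the exponent above `4 g + 4` -/
noncomputable def expo (g : ℕ) (κ : ℝ) : ℝ :=
  min (max (2 * g - 1 / 2) (4 * g / (κ - 4 * g - 2)))
    (min (2 * g * (2 * g + 1) / (κ - 4 * g - 2)) (1 + 2 * g * (2 * g - 1) / (κ - 4 * g - 2)))

/-- the exponent below `4 g + 4` -/
noncomputable def expoBelow (g : ℕ) (κ : ℝ) : ℝ :=
  max (2 * g - 1 / 2) (4 * g / (2 + (2 * g + 1) * (1 - κ / (4 * g + 4))))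

lemma count_of {K : Type} [Field K] [NumberField K] {g n : ℕ} (hg : 2 ≤ g) (S : Set (ℙ K (Fin (n + 1) → K)))
    (F : ℝ → Set (ℙ K (Fin (n + 1) → K))) (e : ℝ)
    (hF : ∀ δ : ℝ, 0 < δ → ∃ M : ℝ, ∀ B : ℝ, 1 ≤ B → (F B).Finite ∧
      ((F B).ncard : ℝ) ≤ M * B ^ (Module.finrank ℚ K * e + δ))
    (hS : ∀ P ∈ S, ∀ B : ℝ, 1 ≤ B → Real.log P.mulHeight / Module.finrank ℚ K ≤ Real.log B → P ∈ F B)
    (ε : ℝ) (hε : 0 < ε) :
    ∃ C : ℝ, ∀ X : ℝ, 1 ≤ X →
      {P | P ∈ S ∧ P.mulHeight ^ (2 * g) ≤ X}.Finite ∧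
      ({P | P ∈ S ∧ P.mulHeight ^ (2 * g) ≤ X}.ncard : ℝ) ≤ C * X ^ (e / (2 * g) + ε) := by
  have hd : (0 : ℝ) < (Module.finrank ℚ K : ℝ) := by exact_mod_cast Module.finrank_pos
  set d : ℝ := (Module.finrank ℚ K : ℝ) with hd'
  have hg0 : (0 : ℝ) < g := by exact_mod_cast (by omega : 0 < g)
  obtain ⟨M, hM⟩ := hF (2 * g * d * ε) (by positivity)
  refine ⟨M, fun X hX => ?_⟩
  have hX0 : 0 < X := by linarith
  have hB : 1 ≤ X ^ (1 / (2 * g * d)) := Real.one_le_rpow hX (by positivity)
  obtain ⟨hfin, hcard⟩ := hM (X ^ (1 / (2 * g * d))) hB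
  have hsub : {P | P ∈ S ∧ P.mulHeight ^ (2 * g) ≤ X} ⊆ F (X ^ (1 / (2 * g * d))) := by
    rintro P ⟨hP, hPX⟩
    apply hS P hP _ hB
    have h1 : 0 < P.mulHeight := P.mulHeight_pos
    have h2 : Real.log (P.mulHeight ^ (2 * g)) ≤ Real.log X := Real.log_le_log (by positivity) hPX
    rw [Real.log_pow] at h2
    rw [Real.log_rpow hX0, div_le_iff₀ hd]
    push_cast at h2
    have h3 : Real.log P.mulHeight ≤ Real.log X / (2 * g) := by
      rw [le_div_iff₀ (by positivity)]
      linarith
    refine h3.trans (le_of_eq ?_)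
    field_simp
  refine ⟨hfin.subset hsub, ?_⟩
  have h4 : ({P | P ∈ S ∧ P.mulHeight ^ (2 * g) ≤ X}.ncard : ℝ) ≤ ((F (X ^ (1 / (2 * g * d)))).ncard : ℝ) := by
    exact_mod_cast Set.ncard_le_ncard hsub hfin
  refine (h4.trans hcard).trans (le_of_eq ?_)
  rw [← Real.rpow_mul hX0.le]
  congr 2
  field_simp

/-- `Δ_C ≤ c M_C ^ κ` for all twists of all configurations `P` with different roots and `|H_K(P) ^ (2 g) - G v| ≤ v ^ θ` -/
def Above (K : Type) [Field K] [NumberField K] (g n : ℕ) (κ c : ℝ) (G : ℕ → ℝ) (θ : ℝ) (v : ℕ) : Prop :=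
  ∀ P : ℙ K (Fin (n + 1) → K), Function.Injective (roots P.rep) → |P.mulHeight ^ (2 * g) - G v| ≤ (v : ℝ) ^ θ →
    ∀ d : K, d ≠ 0 → (discNorm g (curve d P.rep) : ℝ) ≤ c * (badNorm g (curve d P.rep) : ℝ) ^ κ

/-- for each such configuration the inequality fails for some twist -/
def Below (K : Type) [Field K] [NumberField K] (g n : ℕ) (κ c : ℝ) (G : ℕ → ℝ) (θ : ℝ) (v : ℕ) : Prop :=
  ∀ P : ℙ K (Fin (n + 1) → K), Function.Injective (roots P.rep) → |P.mulHeight ^ (2 * g) - G v| ≤ (v : ℝ) ^ θ →
    ∃ d : K, d ≠ 0 ∧ c * (badNorm g (curve d P.rep) : ℝ) ^ κ < (discNorm g (curve d P.rep) : ℝ)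

/-- **Theorem.** Let `f` be in the class `PM`, `G` with steps `≥ const > 0` and growth at most `v^ε`. Let `K` be a number field,
`g ≥ 2`, `c > 0`, `θ ≥ 0` and `U` a natural number. (1) If `κ > 4 g + 4` then `expo g κ < 2 g`, and the inequality
`Δ_C ≤ c M_C ^ κ` for ALL twists `d` of ALL configurations `P` with different roots and `|H_K(P) ^ (2 g) - G v| ≤ v ^ θ` holds in
the sense `Sparse e f`, `e = ε expo g κ / (2 g) + θ`. (2) If `0 ≤ κ < 4 g + 4` then `expoBelow g κ < 2 g`, and in the sense
`Sparse e f`, `e = ε expoBelow g κ / (2 g) + θ`, the inequality fails for some twist of EACH such configuration. (`Sparse e f`: with a saving of `(log x)^U` it holds at `f v` for almost all `v` among the positive values of every integer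
polynomial without repeated roots of degree `< 1 / e`; among the shifted primes `p + a` for every `a`, if `e < 1`; and in all
intervals `(x, x + y]`, `x^τ ≤ y ≤ x`, `e < τ ≤ 1`.) Euler's function and the sum of the divisors are in the class `PM`, and
`α v^d` with `α > 0`, `d ≥ 1` is an example of `G`. -/
theorem result :
    (∀ f : ℕ → ℕ, PM f → ∀ (G : ℕ → ℝ) (e : ℝ), Expanding G e →
      ∀ (K : Type) [Field K] [NumberField K] (g n : ℕ) (κ c θ : ℝ), 2 ≤ g → n + 1 = 2 * g → 0 < c → 0 ≤ θ →
      (4 * g + 4 < κ → expo g κ < 2 * g ∧ ∀ U : ℕ, Sparse (e * (expo g κ / (2 * g)) + θ) f (Above K g n κ c G θ) U) ∧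
      (0 ≤ κ → κ < 4 * g + 4 → expoBelow g κ < 2 * g ∧
        ∀ U : ℕ, Sparse (e * (expoBelow g κ / (2 * g)) + θ) f (Below K g n κ c G θ) U)) ∧
    (PM Nat.totient ∧ PM (fun m => ∑ d ∈ m.divisors, d) ∧ PM (fun m => m)) ∧
    ∀ α e : ℝ, 0 < α → 1 ≤ e → Expanding (fun v => α * (v : ℝ) ^ e) e := by
  refine ⟨fun f hf G e hG K _ _ g n κ c θ hg hn hc hθ => ⟨fun hκ => ?_, fun hκ0 hκ => ?_⟩, examples,
    fun α e hα he => expanding_pow hα he⟩
  · obtain ⟨h1, h2⟩ := (RationalWeierstrassPoints.result K g n hg hn κ).1 hκ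
    have hg2 : (2 : ℝ) ≤ g := by exact_mod_cast hg
    have hs : 0 ≤ expo g κ := by
      have hk : 0 < κ - 4 * g - 2 := by linarith
      unfold expo
      refine le_min ((by linarith : (0 : ℝ) ≤ 2 * g - 1 / 2).trans (le_max_left _ _)) (le_min ?_ ?_)
      · positivity
      · have : (0 : ℝ) ≤ 2 * g - 1 := by linarith
        positivity
    refine ⟨h1, fun U => ?_⟩
    exact sparse_good (T := ℙ K (Fin (n + 1) → K)) (fun P => Function.Injective (roots P.rep))
      (fun P => ∀ d : K, d ≠ 0 → (discNorm g (curve d P.rep) : ℝ) ≤ c * (badNorm g (curve d P.rep) : ℝ) ^ κ)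
      (fun P => P.mulHeight ^ (2 * g)) hf hG (s := expo g κ / (2 * g)) (κ := θ) (by positivity) hθ
      (count_of hg _ (fun B => RationalWeierstrassPoints.exceptional K g n κ c B) (expo g κ)
        (fun δ hδ => h2 c δ hc hδ) (fun P hP B hB hB2 => by
          have h3 := hP.2
          push Not at h3
          exact ⟨hP.1, hB2, h3⟩)) U
  · obtain ⟨h1, h2⟩ := (RationalWeierstrassPoints.result K g n hg hn κ).2 hκ0 hκ
    have hg2 : (2 : ℝ) ≤ g := by exact_mod_cast hg
    have hs : 0 ≤ expoBelow g κ := by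
      unfold expoBelow
      exact (by linarith : (0 : ℝ) ≤ 2 * g - 1 / 2).trans (le_max_left _ _)
    refine ⟨h1, fun U => ?_⟩
    exact sparse_good (T := ℙ K (Fin (n + 1) → K)) (fun P => Function.Injective (roots P.rep))
      (fun P => ∃ d : K, d ≠ 0 ∧ c * (badNorm g (curve d P.rep) : ℝ) ^ κ < (discNorm g (curve d P.rep) : ℝ))
      (fun P => P.mulHeight ^ (2 * g)) hf hG (s := expoBelow g κ / (2 * g)) (κ := θ) (by positivity) hθ
      (count_of hg _ (fun B => RationalWeierstrassPoints.uniform K g n κ c B) (expoBelow g κ)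
        (fun δ hδ => h2 c δ hc hδ) (fun P hP B hB hB2 => by
          have h3 := hP.2
          push Not at h3
          exact ⟨hP.1, hB2, h3⟩)) U

end Pool.Agent.Results.MP_ca2859_nt.SparseArguments
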